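import Mathlib
import Pool.Agent.H.MP_3ab43d_mp.Main

namespace Pool.Agent.H.MP_c5cda2_mp

open Filter Topology Set Finset Pool.Agent.H.MP_3ab43d_mp

lemma sol_add (w : ℕ → ℂ) (x y : ℂ) (n : ℕ) :
    sol w x y (n + 2) = w (n + 1) * sol w x y (n + 1) - sol w x y n := rfl

lemma wron (w : ℕ → ℂ) (n : ℕ) :
    sol w 0 1 (n + 1) * sol w 1 0 n - sol w 0 1 n * sol w 1 0 (n + 1) = 1 := by
  induction n with
  | zero => simp [sol]
  | succ n ih => rw [sol_add, sol_add]; linear_combination ih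

lemma one (w W f : ℕ → ℂ) {p : ℕ} (hp : 0 < p) (hW : ∀ n, 0 < n → n < p → W n = w n)
    (hf : ∀ n, f (n + 2) = W (n + 1) * f (n + 1) - f n) :
    f p = sol w 0 1 p * f 1 + sol w 1 0 p * f 0 ∧ f (p + 1) =
      sol w 0 1 (p + 1) * f 1 + sol w 1 0 (p + 1) * f 0 + (W p - w p) * f p := by
  have a := uniq w f (fun n => sol w 0 1 n * f 1 + sol w 1 0 n * f 0) p
    (fun n hn => by rw [hf, hW _ (by omega) (by omega)])
    (fun n _ => by rw [sol_add, sol_add]; ring) (by simp [sol]) (by simp [sol])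
  obtain ⟨q, rfl⟩ : ∃ q, p = q + 1 := ⟨p - 1, by omega⟩
  refine ⟨a _ le_rfl, ?_⟩
  rw [hf, a _ le_rfl, a q (by omega), sol_add, sol_add]
  ring

lemma three (w W f : ℕ → ℂ) {p : ℕ} (hp : 0 < p) (per : ∀ n, w (p + n) = w n)
    (hW : ∀ n, ¬ p ∣ n → W n = w n) (hf : ∀ n, f (n + 2) = W (n + 1) * f (n + 1) - f n) :
    (sol w 0 1 (p + 1) + sol w 1 0 p) * f p =
      f 0 + f (p + p) - sol w 0 1 p * (W p - w p) * f p ∧
    (sol w 0 1 (p + 1) + sol w 1 0 p) * f (p + 1) = f 1 + f (p + p + 1) -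
      (W (p + p) - w (p + p)) * f (p + p) + sol w 1 0 p * (W p - w p) * f p := by
  obtain ⟨a, b⟩ := one w W f hp (fun n h1 h2 => hW n (Nat.not_dvd_of_pos_of_lt h1 h2)) hf
  obtain ⟨c, d⟩ := one w (fun n => W (p + n)) (fun n => f (p + n)) hp (fun n h1 h2 => by
    rw [hW _ (by simpa using Nat.not_dvd_of_pos_of_lt h1 h2), per]) fun n => hf (p + n)
  have e := wron w p
  simp only [add_zero, ← add_assoc] at c d
  rw [per]
  constructor
  · linear_combination (-1) * c - sol w 0 1 p * b + sol w 0 1 (p + 1) * a + f 0 * e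
  · linear_combination (-1) * d + sol w 1 0 p * b - sol w 1 0 (p + 1) * a + f 1 * e

lemma grow (s : ℕ → ℂ) (κ : ℂ) (M : ℝ) (hκ : ‖κ‖ ≤ 5 / 2)
    (h : ∀ j, κ * s (j + 1) = s j + s (j + 2)) (h0 : ‖s 0‖ ≤ M) (h1 : ‖s 1‖ ≤ M) (j : ℕ) :
    ‖s j‖ ≤ 3 ^ j * M := by
  have := (norm_nonneg _).trans h0
  induction j using Nat.twoStepInduction with
  | zero => simpa
  | one => linarith
  | more n a b =>
    rw [show s (n + 2) = κ * s (n + 1) - s n by rw [h]; ring]
    refine (norm_sub_le _ _).trans ?_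
    have := mul_le_mul hκ b (norm_nonneg _) (by norm_num)
    have c : 0 ≤ 3 ^ n * M := by positivity
    rw [norm_mul, pow_succ, pow_succ]
    rw [pow_succ] at this
    nlinarith

def Bd (w : ℕ → ℂ) (p : ℕ) (M : ℝ) : Prop :=
  ‖sol w 0 1 p‖ ≤ M ∧ ‖sol w 1 0 p‖ ≤ M ∧ ‖sol w 1 0 (p + 1)‖ ≤ M

lemma Bd.next {w w' : ℕ → ℂ} {p : ℕ} {M : ℝ} (h : Bd w p M) (M1 : 1 ≤ M) (hp : 0 < p)
    (per : ∀ n, w (p + n) = w n) (hκ : ‖sol w 0 1 (p + 1) + sol w 1 0 p‖ ≤ 5 / 2) (N : ℕ)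
    (h1 : ∀ n, 0 < n → n < (N + 1) * p → w' n = w n)
    (h2 : ‖w' ((N + 1) * p) - w ((N + 1) * p)‖ ≤ 1) :
    Bd w' ((N + 1) * p) (2 * 3 ^ (N + 1) * M) := by
  have per' : ∀ j n, w (j * p + n) = w n := fun j n => by
    induction j with
    | zero => simp
    | succ j ih => rw [show (j + 1) * p + n = p + (j * p + n) by ring, per, ih]
  have t := fun x y j => three w w (fun n => sol w x y (j * p + n)) hp per (fun _ _ => rfl)
    fun n => by rw [← add_assoc, sol_add, add_assoc, per']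
  have g0 : ∀ x y, ‖x‖ ≤ M → ‖sol w x y p‖ ≤ M → ‖sol w x y ((N + 1) * p)‖ ≤ 3 ^ (N + 1) * M :=
    fun x y a b => grow (fun j => sol w x y (j * p)) _ M hκ (fun j => by
      have := (t x y j).1
      simp only [sub_self, mul_zero, zero_mul, sub_zero, add_zero] at this
      rwa [add_mul j, one_mul, show (j + 2) * p = j * p + (p + p) by ring])
      (by simpa [sol] using a) (by simpa using b) _
  have g1 : ‖sol w 1 0 ((N + 1) * p + 1)‖ ≤ 3 ^ (N + 1) * M :=
    grow (fun j => sol w 1 0 (j * p + 1)) _ M hκ (fun j => by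
      have := (t 1 0 j).2
      simp only [sub_self, mul_zero, zero_mul, sub_zero, add_zero] at this
      rwa [add_mul j, one_mul, add_assoc (j * p), show (j + 2) * p + 1 = j * p + (p + p + 1) by ring])
      (by simp [sol]; linarith) (by simpa using h.2.2) _
  have o := fun x y => one w w' (sol w' x y) (Nat.mul_pos (by omega : 0 < N + 1) hp) h1 (sol_add w' x y)
  have a := (o 0 1).1
  obtain ⟨b, c⟩ := o 1 0
  simp only [show ∀ x y, sol w' x y 0 = x from fun _ _ => rfl,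
    show ∀ x y, sol w' x y 1 = y from fun _ _ => rfl, mul_one, mul_zero, add_zero, zero_add] at a b c
  have g2 := g0 0 1 (by simp; linarith) h.1
  have g3 := g0 1 0 (by simpa) h.2.1
  have z : 0 ≤ 3 ^ (N + 1) * M := by positivity
  refine ⟨by rw [a]; linarith, by rw [b]; linarith, ?_⟩
  rw [c, b]
  refine (norm_add_le _ _).trans ?_
  have := mul_le_mul h2 g3 (norm_nonneg _) zero_le_one
  rw [norm_mul]
  linarith

lemma level (w W ψ : ℤ → ℂ) {p : ℕ} {M : ℝ} (hp : 0 < p) (per : Function.Periodic w p)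
    (M1 : 1 ≤ M) (h : Bd (fun n => w n) p M) (hW : ∀ n, ¬ (p : ℤ) ∣ n → W n = w n)
    (hη : ∀ n, ‖W n - w n‖ * M ≤ 1 / 4) (hψ : ∀ n, ψ (n + 1) + ψ (n - 1) = W n * ψ n) (j : ℤ) :
    ‖(sol (fun n => w n) 0 1 (p + 1) + sol (fun n => w n) 1 0 p) * ψ ((j + 1) * p) - ψ (j * p) -
      ψ ((j + 2) * p)‖ ≤ ‖ψ ((j + 1) * p)‖ / 4 ∧
    ‖(sol (fun n => w n) 0 1 (p + 1) + sol (fun n => w n) 1 0 p) * ψ ((j + 1) * p + 1) -
      ψ (j * p + 1) - ψ ((j + 2) * p + 1)‖ ≤ ‖ψ ((j + 1) * p)‖ / 4 + ‖ψ ((j + 2) * p)‖ / 4 := by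
  have pj : ∀ n, w (j * p + n) = w n := fun n => by
    have := per.int_mul j n
    rwa [Int.cast_id, add_comm] at this
  obtain ⟨a, b⟩ := three (fun n => w n) (fun n => W (j * p + n)) (fun n => ψ (j * p + n)) hp
    (fun n => by rw [Nat.cast_add, add_comm, per]) (fun n hn => by
      rw [hW _ (by rwa [dvd_add_right (Dvd.intro_left _ rfl), Int.natCast_dvd_natCast]), pj])
    fun n => by
      have := hψ (j * p + (n + 1 : ℕ))
      rw [show j * p + (n + 1 : ℕ) + 1 = j * p + (n + 2 : ℕ) by push_cast; ring,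
        show j * p + (n + 1 : ℕ) - 1 = j * p + n by push_cast; ring] at this
      linear_combination this
  have c := hη (j * p + p)
  have d := hη (j * p + (p + p))
  rw [pj] at c d
  push_cast at a b
  rw [show (j + 1) * p = j * p + p by ring, show (j + 2) * p = j * p + (p + p) by ring]
  have c1 := mul_le_mul_of_nonneg_left h.1 (norm_nonneg (W (j * p + p) - w p))
  have c2 := mul_le_mul_of_nonneg_left h.2.1 (norm_nonneg (W (j * p + p) - w p))
  have d1 := mul_le_mul_of_nonneg_left M1 (norm_nonneg (W (j * p + (p + p)) - w (p + p)))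
  have n1 := norm_nonneg (ψ (j * p + p))
  have n2 := norm_nonneg (ψ (j * p + (p + p)))
  constructor
  · rw [a, add_zero, show ∀ x y z : ℂ, x + y - z - x - y = -z by intros; ring, norm_neg, norm_mul,
      norm_mul]
    nlinarith
  · rw [add_assoc (j * p), add_assoc (j * p), b,
      show ∀ x y z t : ℂ, x + y - z + t - x - y = t - z by intros; ring]
    refine (norm_sub_le _ _).trans ?_
    rw [norm_mul, norm_mul, norm_mul]
    nlinarith

lemma trace (κ : ℂ) (x y : ℤ → ℂ) (hx : Tendsto x cofinite (𝓝 0)) (hy : Tendsto y cofinite (𝓝 0))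
    (h0 : 0 < max ‖x 0‖ ‖y 0‖)
    (h : ∀ j, ‖κ * x (j + 1) - x j - x (j + 2)‖ ≤ ‖x (j + 1)‖ / 4 ∧
      ‖κ * y (j + 1) - y j - y (j + 2)‖ ≤ ‖x (j + 1)‖ / 4 + ‖x (j + 2)‖ / 4) : ‖κ‖ ≤ 5 / 2 := by
  have t := hx.norm.max hy.norm
  simp only [norm_zero, max_self] at t
  obtain ⟨j, hj⟩ : ∃ j, ∀ i, max ‖x i‖ ‖y i‖ ≤ max ‖x j‖ ‖y j‖ := by
    obtain ⟨j, a, b⟩ := Set.exists_max_image _ (fun i => max ‖x i‖ ‖y i‖)
      (eventually_cofinite.1 (t.eventually_lt_const h0)) ⟨0, by simp⟩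
    refine ⟨j, fun i => ?_⟩
    by_cases c : max ‖x i‖ ‖y i‖ < max ‖x 0‖ ‖y 0‖
    exacts [c.le.trans (not_lt.1 a), b i c]
  obtain ⟨j, rfl⟩ : ∃ i, j = i + 1 := ⟨j - 1, by ring⟩
  obtain ⟨A, hA⟩ : ∃ A, A = max ‖x (j + 1)‖ ‖y (j + 1)‖ := ⟨_, rfl⟩
  rw [← hA] at hj
  have hj' := fun i => max_le_iff.1 (hj i)
  have k : ∀ a b c : ℂ, ‖κ‖ * ‖a‖ ≤ ‖κ * a - b - c‖ + ‖b‖ + ‖c‖ := fun a b c => by
    rw [← norm_mul]
    exact (congrArg norm (by ring)).le.trans (norm_add₃_le (a := κ * a - b - c) (b := b) (c := c))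
  have : ‖κ‖ * A ≤ 5 / 2 * A := by
    rcases max_choice ‖x (j + 1)‖ ‖y (j + 1)‖ with c | c <;> rw [← hA] at c
    · linarith [k (x (j + 1)) (x j) (x (j + 2)), (h j).1, (hj' j).1, (hj' (j + 2)).1, c ▸ le_refl A,
        (hj' (j + 1)).1, congrArg (‖κ‖ * ·) c, h0.trans_le (hj 0)]
    · linarith [k (y (j + 1)) (y j) (y (j + 2)), (h j).2, (hj' j).2, (hj' (j + 2)).2,
        (hj' (j + 2)).1, (hj' (j + 1)).1, congrArg (‖κ‖ * ·) c]
  exact le_of_mul_le_mul_right this (h0.trans_le (hj 0))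

lemma noeig (w : ℕ → ℤ → ℂ) (W ψ : ℤ → ℂ) (p N : ℕ → ℕ) (M : ℕ → ℝ) (p0 : p 0 = 1)
    (pS : ∀ k, p (k + 1) = (N k + 1) * p k) (pl : ∀ k, k < p k) (M1 : ∀ k, 1 ≤ M k)
    (MS : ∀ k, M (k + 1) = 2 * 3 ^ (N k + 1) * M k) (per : ∀ k, Function.Periodic (w k) (p k))
    (hW : ∀ k n, ¬ (p (k + 1) : ℤ) ∣ n → W n = w k n) (hη : ∀ k n, ‖W n - w k n‖ * M k ≤ 1 / 4)
    (hψ : ∀ n, ψ (n + 1) + ψ (n - 1) = W n * ψ n) (t : Tendsto ψ cofinite (𝓝 0)) : ψ = 0 := by
  have pp : ∀ k, 0 < p k := fun k => (Nat.zero_le k).trans_lt (pl k)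
  have hW' : ∀ k n, ¬ (p k : ℤ) ∣ n → W n = w k n := fun k n h => hW k n fun c =>
    h (Dvd.dvd.trans ⟨(N k + 1 : ℕ), by rw [pS]; push_cast; ring⟩ c)
  suffices h : ψ 0 = 0 ∧ ψ 1 = 0 by
    have : ∀ n, ψ n = 0 ∧ ψ (n + 1) = 0 := fun n => by
      induction n using Int.induction_on with
      | zero => simpa
      | succ n ih => exact ⟨ih.2, by simpa [ih.1, ih.2] using hψ (n + 1)⟩
      | pred n ih => exact ⟨by simpa [ih.1, ih.2] using hψ (-n), by simpa using ih.1⟩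
    exact funext fun n => (this n).1
  by_contra hc
  have h0 : 0 < max ‖ψ 0‖ ‖ψ 1‖ := by
    by_contra c
    rw [not_lt, max_le_iff, norm_le_zero_iff, norm_le_zero_iff] at c
    exact hc c
  have tr : ∀ k, Bd (fun n => w k n) (p k) (M k) →
      ‖sol (fun n => w k n) 0 1 (p k + 1) + sol (fun n => w k n) 1 0 (p k)‖ ≤ 5 / 2 := fun k h => by
    have i : Function.Injective fun j : ℤ => j * p k :=
      mul_left_injective₀ (by have := pp k; omega)
    exact trace _ (fun j => ψ (j * p k)) (fun j => ψ (j * p k + 1))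
      (t.comp i.tendsto_cofinite) (t.comp ((add_left_injective 1).comp i).tendsto_cofinite)
      (by simpa using h0) (level (w k) W ψ (pp k) (per k) (M1 k) h (hW' k) (hη k) hψ)
  have bd : ∀ k, Bd (fun n => w k n) (p k) (M k) := fun k => by
    induction k with
    | zero => rw [p0]; exact ⟨by simpa [sol] using M1 0, by simp [sol]; linarith [M1 0],
        by simpa [sol] using M1 0⟩
    | succ k ih =>
      rw [pS, MS]
      refine ih.next (M1 k) (pp k) (fun n => by rw [Nat.cast_add, add_comm, per]) (tr k ih) _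
        (fun n a b => ?_) ?_
      · have : ¬ (p (k + 1) : ℤ) ∣ n := by
          rw [Int.natCast_dvd_natCast, pS]; exact Nat.not_dvd_of_pos_of_lt a b
        rw [← hW k n this, hW' _ n this]
      · have e : ∀ k n, ‖W n - w k n‖ ≤ 1 / 4 := fun k n =>
          (le_mul_of_one_le_right (norm_nonneg _) (M1 k)).trans (hη k n)
        rw [← sub_sub_sub_cancel_left _ _ (W ((N k + 1) * p k : ℕ))]
        linarith [norm_sub_le (W ((N k + 1) * p k : ℕ) - w k ((N k + 1) * p k : ℕ))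
          (W ((N k + 1) * p k : ℕ) - w (k + 1) ((N k + 1) * p k : ℕ)), e k ((N k + 1) * p k : ℕ),
          e (k + 1) ((N k + 1) * p k : ℕ)]
  obtain ⟨ε, hε⟩ : ∃ ε, ε = max ‖ψ 0‖ ‖ψ 1‖ := ⟨_, rfl⟩
  rw [← hε] at h0
  obtain ⟨K, hK⟩ := (eventually_cofinite.1 (t.norm.eventually_lt_const
    (by simpa using h0 : ‖(0 : ℂ)‖ < ε / 5))).bddAbove
  have sm : ∀ n, K < n → ‖ψ n‖ < ε / 5 := fun n hn => not_not.1 fun c => (hK c).not_gt hn
  obtain ⟨a, b⟩ := level (w K.toNat) W ψ (pp _) (per _) (M1 _) (bd _) (hW' _) (hη _) hψ 0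
  have c := tr _ (bd K.toNat)
  have l := pl K.toNat
  generalize sol (fun n : ℕ => w K.toNat n) 0 1 (p K.toNat + 1) +
    sol (fun n : ℕ => w K.toNat n) 1 0 (p K.toNat) = κ at a b c
  simp only [zero_add, zero_mul, one_mul] at a b
  have k : ∀ a b c : ℂ, ‖a‖ < ε / 5 → ‖c‖ < ε / 5 → ‖b‖ ≤ ‖κ * a - b - c‖ + 7 / 2 * (ε / 5) := by
    intro x y z hx hz
    have := norm_sub_le (κ * x - z) (κ * x - y - z)
    rw [show κ * x - z - (κ * x - y - z) = y by ring] at this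
    have h2 := norm_sub_le (κ * x) z
    have h3 := mul_le_mul c hx.le (norm_nonneg _) (by norm_num)
    rw [norm_mul] at h2
    linarith
  have s1 := sm (p K.toNat) (by omega)
  have s2 := sm (2 * p K.toNat) (by omega)
  have : max ‖ψ 0‖ ‖ψ 1‖ < ε := max_lt (by linarith [k _ (ψ 0) _ s1 s2])
    (by linarith [k _ (ψ 1) _ (sm (p K.toNat + 1) (by omega)) (sm (2 * p K.toNat + 1) (by omega))])
  exact this.ne' hε

theorem main : ∃ V : ℤ → ℝ,
    (∀ ε : ℝ, 0 < ε → ∃ p : ℕ, 0 < p ∧ ∃ W : ℤ → ℝ, Function.Periodic W p ∧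
      ∀ n, |V n - W n| < ε) ∧ (∀ n, |V n| ≤ 25) ∧
    (∃ u : ℤ → ℝ, u 0 = 1 ∧ Summable (fun n => |u n|) ∧
      ∀ n, u (n + 1) + u (n - 1) + V n * u n = 0) ∧
    ∀ (E : ℂ) (ψ : ℤ → ℂ), Tendsto ψ cofinite (𝓝 0) →
      (∀ n, ψ (n + 1) + ψ (n - 1) + ((1 / 80 * V n : ℝ) : ℂ) * ψ n = E * ψ n) → ψ = 0 := by
  let l : ℕ → ℝ := fun k => Nat.rec (1 / 4) (fun k _ => 1 / (8 * (k + 1) * (k + 2))) k
  have l0 : l 0 = 1 / 4 := rfl
  have lS : ∀ k : ℕ, l (k + 1) = 1 / (8 * (k + 1) * (k + 2)) := fun _ => rfl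
  have lp : ∀ k, 0 < l k := fun k => by
    cases k with
    | zero => rw [l0]; norm_num
    | succ k => rw [lS]; positivity
  have l4 : ∀ k, l k ≤ 1 / 4 := fun k => by
    cases k with
    | zero => rw [l0]
    | succ k =>
      exact one_div_le_one_div_of_le (by norm_num) (by nlinarith [(Nat.cast_nonneg k : (0 : ℝ) ≤ k)])
  have l1 : ∀ k, l k < 1 := fun k => (l4 k).trans_lt (by norm_num)
  have ex : ∀ k (m : ℝ), ∃ N : ℕ, 1 ≤ N ∧ (0 < m →
      (l (k + 1) + (l (k + 1))⁻¹) * l k ^ N ≤ 5 / (2 * 3 ^ (N + 1) * m)) := fun k m => by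
    by_cases hm : 0 < m
    · have := lp k
      have := lp (k + 1)
      obtain ⟨K, K1, hK⟩ := bigN (l := 3 * l k) (by positivity) (by linarith [l4 k])
        (5 / (6 * m) / (l (k + 1) + (l (k + 1))⁻¹)) (by positivity)
      refine ⟨K, K1, fun _ => ?_⟩
      have := (le_mul_of_one_le_left (by positivity)
        (by linarith [(Nat.cast_nonneg K : (0 : ℝ) ≤ K)])).trans (hK K le_rfl)
      rw [le_div_iff₀ (by positivity), le_div_iff₀ (by positivity), mul_pow] at this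
      rw [le_div_iff₀ (by positivity), pow_succ]
      linarith
    · exact ⟨1, le_rfl, fun h => absurd h hm⟩
  choose g g1 g2 using ex
  let M : ℕ → ℝ := fun k => Nat.rec 1 (fun k m => 2 * 3 ^ (g k m + 1) * m) k
  let N : ℕ → ℕ := fun k => g k (M k)
  have MS : ∀ k, M (k + 1) = 2 * 3 ^ (N k + 1) * M k := fun _ => rfl
  have M0 : M 0 = 1 := rfl
  let p : ℕ → ℕ := fun k => Nat.rec 1 (fun k q => (N k + 1) * q) k
  let U : ℕ → ℤ → ℝ := fun k =>
    Nat.rec (fun _ => -(l 0 + (l 0)⁻¹)) (fun k W => fill W (p (k + 1)) (l (k + 1))) k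
  have hi : Hier l N p U := ⟨lp, l1, fun k => g1 _ _, rfl, fun _ => rfl, rfl, fun _ => rfl⟩
  have Mp : ∀ k, 0 < M k := fun k => by
    induction k with
    | zero => exact one_pos
    | succ k ih => rw [MS]; positivity
  have M2 : ∀ k m, 2 ^ m * M k ≤ M (m + k) := fun k m => by
    induction m with
    | zero => simp
    | succ m ih =>
      have : (1 : ℝ) ≤ 3 ^ (N (m + k) + 1) := one_le_pow₀ (by norm_num)
      rw [add_right_comm, MS, pow_succ]
      nlinarith [Mp (m + k)]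
  have b1 : ∀ k, (l (k + 1) + (l (k + 1))⁻¹) / th (U k) 0 ((N k + 1) * p k) ≤ 5 / M (k + 1) :=
    fun k => by
      have := lp k
      have := lp (k + 1)
      refine le_trans ?_ (g2 k _ (Mp k))
      rw [div_eq_mul_one_div]
      exact mul_le_mul_of_nonneg_left (((hi.inv k).small _).trans
        (div_le_self (by positivity) (hi.inv k).one)) (by positivity)
  have b2 : ∀ k, (l k + (l k)⁻¹) / th (U k) 0 (p k) ≤ 5 / M k := fun k => by
    cases k with
    | zero => rw [hi.p0, th_one, l0, M0]; norm_num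
    | succ k => rw [hi.US, th_congr (fill_off _ _ _) 0 _ le_rfl, hi.pS]; exact b1 k
  have sd : ∀ k, Summable (fun m => 10 / M (m + k)) ∧ ∑' m, 10 / M (m + k) ≤ 20 / M k := by
    intro k
    have := Mp k
    have a : ∀ m, 10 / M (m + k) ≤ 20 / M k / 2 / 2 ^ m := fun m =>
      (div_le_div_of_nonneg_left (by norm_num) (by positivity) (M2 k m)).trans
        (le_of_eq (by field_simp; norm_num))
    have b := Summable.of_nonneg_of_le (fun m => div_nonneg (by norm_num) (Mp _).le) a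
      (summable_geometric_two' _)
    exact ⟨b, (b.tsum_le_tsum a (summable_geometric_two' _)).trans_eq (tsum_geometric_two' _)⟩
  obtain ⟨V, v1, v2, -, hu⟩ := hi.limit (fun k => 10 / M k) (sd 0).1 (fun k => by
    have a := (hi.inv k).delta (N k) (lp (k + 1))
    have l2 : 2 ≤ l (k + 1) + (l (k + 1))⁻¹ := by
      have := lp (k + 1)
      rw [← sub_nonneg, show l (k + 1) + (l (k + 1))⁻¹ - 2 = (1 - l (k + 1)) ^ 2 / l (k + 1) by
        field_simp; ring]
      positivity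
    have c := (mul_le_mul_of_nonneg_right l2 (pow_pos (lp k) _).le).trans (g2 k _ (Mp k))
    have d := (div_le_div_of_nonneg_right (by linarith [lp k] : (l k)⁻¹ - l k ≤ l k + (l k)⁻¹)
      (zero_le_one.trans (hi.inv k).one)).trans (b2 k)
    have e : 5 / M (k + 1) ≤ 5 / M k / 2 := by
      rw [div_div]
      exact div_le_div_of_nonneg_left (by norm_num) (by linarith [Mp k])
        (by have := M2 k 1; rw [add_comm] at this; linarith)
    have f : 10 / M k = 2 * (5 / M k) := by ring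
    rw [hi.US, hi.pS]
    rw [← MS] at c
    linarith [b1 k]) (squeeze_zero (fun k => div_nonneg (by have := lp k; positivity)
      (zero_le_one.trans (hi.inv _).one)) (fun k => (b2 k).trans
        (div_le_div_of_nonneg_right (by norm_num) (Mp k).le)) (sd 0).1.tendsto_atTop_zero) _
    (prodb l (lp 0) (l1 0) lS)
  refine ⟨V, lp_of (d := fun k => 10 / M k) hi.inv v1, fun n => ?_, hu, fun E ψ t h =>
    noeig (fun k n => E - ((1 / 80 * U k n : ℝ) : ℂ)) (fun n => E - ((1 / 80 * V n : ℝ) : ℂ)) ψ p N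
      M rfl hi.pS hi.lt (fun k => (one_le_pow₀ one_le_two).trans (by simpa [M0] using M2 0 k)) MS
      (fun k n => by simp only [(hi.inv k).per n]) (fun k n c => by rw [v2 k n c]) (fun k n => ?_)
      (fun n => by linear_combination h n) t⟩
  · have := abs_le.1 ((v1 0 n).trans (sd 0).2)
    rw [hi.U0, l0, M0] at this
    norm_num at this
    exact abs_le.2 ⟨by linarith, by linarith⟩
  · have := (le_div_iff₀ (Mp k)).1 ((v1 k n).trans (sd k).2)
    rw [sub_sub_sub_cancel_left, ← Complex.ofReal_sub, Complex.norm_real, Real.norm_eq_abs,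
      ← mul_sub, abs_mul, abs_sub_comm, abs_of_pos (by norm_num : (0 : ℝ) < 1 / 80)]
    linarith

end Pool.Agent.H.MP_c5cda2_mp
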